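import Pool.Agent.Helper73.RS.St

/-! Project RS (MP_ecaebc_co), module WIN: long windows of positive density give a large set. -/

set_option autoImplicit false

namespace Pool.Agent.Helper5.RS

open Pool.Agent.Helper73.RS
open Filter Topology

/-- average over the window `[s, s + L)` -/
private noncomputable def av (L s : ℕ → ℕ) (f : ℕ → ℝ) (k : ℕ) : ℝ :=
  (∑ i ∈ Finset.range (L k), f (s k + i)) / (L k : ℝ)

private theorem av_abs {L s : ℕ → ℕ} (hL : ∀ k, k + 1 ≤ L k) {f : ℕ → ℝ} {C : ℝ}
    (hC : ∀ x, |f x| ≤ C) (k : ℕ) : |av L s f k| ≤ C := by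
  have h1 : (0 : ℝ) < (L k : ℝ) := by
    have := hL k
    exact_mod_cast (by omega : 0 < L k)
  unfold av
  rw [abs_div, abs_of_pos h1, div_le_iff₀ h1]
  calc |∑ i ∈ Finset.range (L k), f (s k + i)| ≤ ∑ i ∈ Finset.range (L k), |f (s k + i)| :=
        Finset.abs_sum_le_sum_abs _ _
    _ ≤ ∑ i ∈ Finset.range (L k), C := Finset.sum_le_sum fun i _ => hC _
    _ = C * (L k : ℝ) := by
        rw [Finset.sum_const, Finset.card_range, nsmul_eq_mul]
        ring

private theorem av_bd {L s : ℕ → ℕ} (hL : ∀ k, k + 1 ≤ L k) {f : ℕ → ℝ} (hf : Bd f) :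
    Bd (av L s f) := by
  obtain ⟨C, hC⟩ := hf
  exact ⟨C, fun k => av_abs hL hC k⟩

theorem holds_WIN : Pool.Agent.Helper73.RS.StWIN := by
  intro U α hα hw
  choose L0 s0 hL0 hs0 using hw
  obtain ⟨L, hLd⟩ : ∃ L : ℕ → ℕ, L = fun k => L0 (k + 1) := ⟨_, rfl⟩
  obtain ⟨s, hsd⟩ : ∃ s : ℕ → ℕ, s = fun k => s0 (k + 1) := ⟨_, rfl⟩
  have hL : ∀ k, k + 1 ≤ L k := fun k => by rw [hLd]; exact hL0 (k + 1)
  have hs : ∀ k, α * (L k : ℝ) ≤ ∑ i ∈ Finset.range (L k), ind U (s k + i) := fun k => by
    rw [hLd, hsd]
    exact hs0 (k + 1)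
  have hLp : ∀ k, (0 : ℝ) < (L k : ℝ) := fun k => by
    have := hL k
    exact_mod_cast (by omega : 0 < L k)
  obtain ⟨H, hH⟩ : ∃ H : Ultrafilter ℕ, H = hyperfilter ℕ := ⟨_, rfl⟩
  have hHle : (H : Filter ℕ) ≤ atTop := by
    rw [hH]
    exact Nat.hyperfilter_le_atTop
  have hmean : IsMean (ext fun f => ulim H (av L s f)) := by
    refine isMean_ext ?_ ?_ ?_ ?_
    · intro f g hf hg
      have h : av L s (fun x => f x + g x) = fun k => av L s f k + av L s g k := by
        funext k
        unfold av
        rw [Finset.sum_add_distrib, add_div]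
      show ulim H (av L s (fun x => f x + g x)) = ulim H (av L s f) + ulim H (av L s g)
      rw [h]
      exact ulim_add H (av_bd hL hf) (av_bd hL hg)
    · intro c f hf
      have h : av L s (fun x => c * f x) = fun k => c * av L s f k := by
        funext k
        unfold av
        rw [← Finset.mul_sum, mul_div_assoc]
      show ulim H (av L s (fun x => c * f x)) = c * ulim H (av L s f)
      rw [h]
      exact ulim_smul H c (av_bd hL hf)
    · intro f hf h
      refine ulim_nonneg H (av_bd hL hf) fun k => ?_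
      exact div_nonneg (Finset.sum_nonneg fun i _ => h _) (hLp k).le
    · have h : av L s (fun _ => 1) = fun _ => 1 := by
        funext k
        unfold av
        rw [Finset.sum_const, Finset.card_range, nsmul_eq_mul, mul_one, div_self (hLp k).ne']
      show ulim H (av L s (fun _ => 1)) = 1
      rw [h]
      exact ulim_const H 1
  refine ⟨_, hmean, ?_, ?_⟩
  · -- invariance
    intro f hf
    rw [ext_apply _ (hf.comp fun x => x + 1), ext_apply _ hf]
    obtain ⟨C, hC⟩ := hf
    have hf : Bd f := ⟨C, hC⟩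
    have h1 := tendsto_ulim H (av_bd (s := s) hL hf)
    have h2 : Tendsto (fun k => av L s (fun x => f (x + 1)) k - av L s f k) (H : Filter ℕ)
        (𝓝 0) := by
      refine Tendsto.mono_left ?_ hHle
      refine squeeze_zero_norm (a := fun k : ℕ => 2 * C * (1 / ((k : ℝ) + 1))) ?_ ?_
      · intro k
        have h3 : av L s (fun x => f (x + 1)) k - av L s f k =
            (f (s k + L k) - f (s k)) / (L k : ℝ) := by
          unfold av
          rw [← sub_div, ← Finset.sum_sub_distrib]
          have h4 := Finset.sum_range_sub (fun i => f (s k + i)) (L k)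
          rw [add_zero] at h4
          rw [← h4]
          rfl
        rw [h3, Real.norm_eq_abs, abs_div, abs_of_pos (hLp k), mul_one_div]
        have h5 : |f (s k + L k) - f (s k)| ≤ 2 * C := by
          calc |f (s k + L k) - f (s k)| ≤ |f (s k + L k)| + |f (s k)| := abs_sub _ _
            _ ≤ C + C := add_le_add (hC _) (hC _)
            _ = 2 * C := by ring
        have h6 : ((k : ℝ) + 1) ≤ (L k : ℝ) := by exact_mod_cast hL k
        have h7 : (0 : ℝ) < (k : ℝ) + 1 := by positivity
        exact div_le_div₀ ((abs_nonneg _).trans h5) h5 h7 h6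
      · have h8 := (tendsto_one_div_add_atTop_nhds_zero_nat (𝕜 := ℝ)).const_mul (2 * C)
        rwa [mul_zero] at h8
    have h9 := h2.add h1
    rw [zero_add] at h9
    have h10 : (fun k => av L s (fun x => f (x + 1)) k - av L s f k + av L s f k) =
        av L s (fun x => f (x + 1)) := by
      funext k
      ring
    rw [h10] at h9
    exact ulim_eq H h9
  · rw [ext_apply _ (Bd.ind U)]
    refine lt_of_lt_of_le hα ?_
    refine ge_of_tendsto (tendsto_ulim H (av_bd hL (Bd.ind U))) (Filter.univ_mem' fun k => ?_)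
    show α ≤ av L s (ind U) k
    unfold av
    rw [le_div_iff₀ (hLp k)]
    exact hs k

end Pool.Agent.Helper5.RS
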